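import Pool.Agent.Lib.MP_4fe900_gt.Defs

/-!
Short paths in tournaments, transitive blocks and a greedy choice.
-/

namespace Pool.Agent.Lib.MP_4fe900_gt.Sc

open Finset
open scoped Classical

variable {V : Type} {r : V → V → Prop}

theorem Tour.flip (hT : Tour r) : Tour (fun a b => r b a) :=
  ⟨fun a b h => hT.1 b a h, fun a b h => (hT.2 a b h).symm⟩

theorem irr (hT : Tour r) (a : V) : ¬r a a := fun h => hT.1 a a h h

theorem sum_out (hT : Tour r) (A : Finset V) :
    2 * ∑ a ∈ A, #{b ∈ A | r a b} + #A = #A * #A := by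
  have h1 : ∑ a ∈ A, #{b ∈ A | r b a} = ∑ a ∈ A, #{b ∈ A | r a b} := by
    simp only [card_filter]
    exact sum_comm
  have h2 : ∀ a ∈ A, #{b ∈ A | r a b} + #{b ∈ A | r b a} + 1 = #A := by
    intro a ha
    have e : {b ∈ A | ¬r a b} = insert a {b ∈ A | r b a} := by
      ext b
      simp only [mem_filter, mem_insert]
      constructor
      · rintro ⟨hb, h⟩
        by_cases hab : b = a
        · exact Or.inl hab
        · exact Or.inr ⟨hb, (hT.2 b a hab).resolve_right h⟩
      · rintro (rfl | ⟨hb, h⟩)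
        · exact ⟨ha, irr hT _⟩
        · exact ⟨hb, hT.1 _ _ h⟩
    have := card_filter_add_card_filter_not (s := A) (fun b => r a b)
    rw [e, card_insert_of_notMem (by simp [irr hT])] at this
    omega
  have h3 := sum_congr rfl h2
  rw [sum_add_distrib, sum_add_distrib, h1] at h3
  simp only [sum_const, smul_eq_mul, mul_one] at h3
  omega

theorem big_out (hT : Tour r) (A : Finset V) (t : ℕ) (h : 2 * t + 1 ≤ #A) :
    ∃ a ∈ A, t ≤ #{b ∈ A | r a b} := by
  by_contra hc
  push Not at hc
  have h1 : ∑ a ∈ A, (#{b ∈ A | r a b} + 1) ≤ ∑ a ∈ A, t := sum_le_sum fun a ha => hc a ha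
  rw [sum_add_distrib] at h1
  simp only [sum_const, smul_eq_mul, mul_one] at h1
  have h2 := sum_out hT A
  nlinarith

variable [Fintype V]

/-- The out-degree. -/
noncomputable def od (r : V → V → Prop) (a : V) : ℕ := #{b | r a b}

theorem escape (hT : Tour r) (y : V) (A : Finset V) (t : ℕ) (h : 4 * t + 1 ≤ #A)
    (hA : ∀ a ∈ A, od r y ≤ od r a) : ∃ a ∈ A, t ≤ #{z | r a z ∧ ¬r y z} := by
  have h0 := card_filter_add_card_filter_not (s := A) (fun b => r y b)
  by_cases h2 : 2 * t + 1 ≤ #{b ∈ A | ¬r y b}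
  · obtain ⟨a, ha, h3⟩ := big_out hT _ t h2
    refine ⟨a, (mem_filter.1 ha).1, h3.trans (card_le_card fun z hz => ?_)⟩
    simp only [mem_filter, mem_univ, true_and] at hz ⊢
    exact ⟨hz.2, hz.1.2⟩
  · obtain ⟨a, ha, h3⟩ := big_out (Tour.flip hT) {b ∈ A | r y b} t (by omega)
    refine ⟨a, (mem_filter.1 ha).1, ?_⟩
    have h4 : t ≤ #{z | r y z ∧ ¬r a z} := h3.trans (card_le_card fun z hz => by
      simp only [mem_filter, mem_univ, true_and] at hz ⊢
      exact ⟨hz.1.2, hT.1 _ _ hz.2⟩)
    have h5 := card_filter_add_card_filter_not (s := ({z | r y z} : Finset V)) (fun b => r a b)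
    have h6 := card_filter_add_card_filter_not (s := ({z | r a z} : Finset V)) (fun b => r y b)
    simp only [filter_filter] at h5 h6
    have h7 := hA a (mem_filter.1 ha).1
    have h8 : #{z | r y z ∧ r a z} = #{z | r a z ∧ r y z} := by simp only [and_comm]
    unfold od at h7
    omega

/-- Any two vertices of `S` are joined by a path with three edges avoiding a given small set. -/
def Lk (r : V → V → Prop) (S : Finset V) (k : ℕ) : Prop :=
  ∀ x ∈ S, ∀ y ∈ S, ∀ F : Finset V, S ⊆ F → #F ≤ k →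
    ∃ a z, a ∉ F ∧ z ∉ F ∧ r x a ∧ r a z ∧ r z y

omit [Fintype V] in
theorem Lk.flip {S : Finset V} {k : ℕ} (h : Lk (fun a b => r b a) S k) : Lk r S k := by
  intro x hx y hy F hF hk
  obtain ⟨a, z, h1, h2, h3, h4, h5⟩ := h y hy x hx F hF hk
  exact ⟨z, a, h2, h1, h5, h4, h3⟩

omit [Fintype V] in
theorem lowest (f : V → ℕ) (U : Finset V) : ∀ s ≤ #U, ∃ S ⊆ U, #S = s ∧
    ∀ y ∈ S, ∀ a ∈ U, a ∉ S → f y ≤ f a := by
  intro s
  induction s with
  | zero => exact fun _ => ⟨∅, empty_subset _, rfl, by simp⟩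
  | succ s ih =>
    intro hs
    obtain ⟨S, h1, h2, h3⟩ := ih (by omega)
    have hne : (U \ S).Nonempty := by
      rw [← card_pos, card_sdiff_of_subset h1]; omega
    obtain ⟨m, hm, h4⟩ := exists_min_image _ f hne
    rw [mem_sdiff] at hm
    refine ⟨insert m S, insert_subset hm.1 h1, by rw [card_insert_of_notMem hm.2, h2], ?_⟩
    intro y hy a ha hS
    rw [mem_insert, not_or] at hS
    rcases mem_insert.1 hy with rfl | hy
    · exact h4 a (mem_sdiff.2 ⟨ha, hS.2⟩)
    · exact h3 y hy a ha hS.2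

theorem exists_lk (hT : Tour r) (D s k : ℕ) (hs : s ≤ k) (hD : D ≤ Fintype.card V)
    (h : #{v | od r v < D} + 5 * k + 5 ≤ D) : ∃ S : Finset V, #S = s ∧ Lk r S k := by
  have h0 := card_filter_add_card_filter_not (s := (univ : Finset V)) (fun v => od r v < D)
  rw [card_univ] at h0
  obtain ⟨S, h1, h2, h3⟩ := lowest (od r) {v | ¬od r v < D} s (by omega)
  refine ⟨S, h2, fun x hx y hy F hF hk => ?_⟩
  have hx' : D ≤ od r x := by simpa using h1 hx
  have h4 : od r x ≤ #(({a | r x a ∧ ¬od r a < D} : Finset V) \ F) + #F + #{v | od r v < D} := by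
    refine le_trans (card_le_card (t := (({a | r x a ∧ ¬od r a < D} : Finset V) \ F) ∪ F ∪
      ({v | od r v < D} : Finset V)) fun a ha => ?_) ((card_union_le _ _).trans (by
        gcongr; exact card_union_le _ _))
    simp only [mem_filter, mem_univ, true_and, mem_union, mem_sdiff] at ha ⊢
    tauto
  obtain ⟨a, ha, h5⟩ := escape hT y (({a | r x a ∧ ¬od r a < D} : Finset V) \ F) (k + 1)
    (by omega) fun a ha => by
      simp only [mem_filter, mem_univ, true_and, mem_sdiff] at ha
      exact h3 y hy a (by simpa using ha.1.2) fun h => ha.2 (hF h)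
  simp only [mem_filter, mem_univ, true_and, mem_sdiff] at ha
  obtain ⟨z, hz, h6⟩ := exists_mem_notMem_of_card_lt_card
    (s := F) (t := ({z | r a z ∧ ¬r y z} : Finset V)) (by omega)
  simp only [mem_filter, mem_univ, true_and] at hz
  exact ⟨a, z, ha.2, h6, ha.1.1, hz.1,
    (hT.2 z y fun e => h6 (e ▸ hF hy)).resolve_right hz.2⟩

omit [Fintype V] in
theorem trans_block (hT : Tour r) : ∀ (k : ℕ) (A : Finset V), 2 ^ k ≤ #A + 1 →
    ∃ g : Fin k → V, (∀ i, g i ∈ A) ∧ ∀ i j, i < j → r (g i) (g j) := by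
  intro k
  induction k with
  | zero => exact fun _ _ => ⟨Fin.elim0, fun i => i.elim0, fun i => i.elim0⟩
  | succ k ih =>
    intro A hA
    have : 0 < 2 ^ k := by positivity
    obtain ⟨a, ha, h⟩ := big_out hT A (2 ^ k - 1) (by rw [pow_succ] at hA; omega)
    obtain ⟨g, h1, h2⟩ := ih {b ∈ A | r a b} (by omega)
    refine ⟨Fin.cons a g, fun i => ?_, fun i j hij => ?_⟩
    · refine Fin.cases ha (fun i => (mem_filter.1 (h1 i)).1) i
    · revert hij
      refine Fin.cases ?_ (fun j => ?_) j
      · simp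
      · refine Fin.cases (fun _ => (mem_filter.1 (h1 j)).2) (fun i hij => ?_) i
        exact h2 i j (by simpa using hij)

omit [Fintype V] in
theorem greedy {ι β : Type} [Fintype ι] [Fintype β] [Nonempty V] (P : ι → (β → V) → Prop)
    (F0 : Finset V)
    (h : ∀ i, ∀ F : Finset V, F0 ⊆ F → #F ≤ #F0 + Fintype.card ι * Fintype.card β →
      ∃ g : β → V, Function.Injective g ∧ (∀ b, g b ∉ F) ∧ P i g) :
    ∃ G : ι × β → V, Function.Injective G ∧ (∀ p, G p ∉ F0) ∧ ∀ i, P i fun b => G (i, b) := by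
  have key : ∀ I : Finset ι, ∃ G : ι → β → V, (∀ i ∈ I, ∀ j ∈ I, ∀ b c, G i b = G j c → i = j ∧ b = c)
      ∧ ∀ i ∈ I, (∀ b, G i b ∉ F0) ∧ P i (G i) := by
    intro I
    induction I using Finset.induction_on with
    | empty => exact ⟨fun _ _ => Classical.arbitrary V, by simp, by simp⟩
    | insert i I hi ih =>
      obtain ⟨G, h1, h2⟩ := ih
      obtain ⟨g, g1, g2, g3⟩ := h i (F0 ∪ (I ×ˢ (univ : Finset β)).image fun p => G p.1 p.2)
        subset_union_left ((card_union_le _ _).trans (by
          gcongr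
          refine card_image_le.trans ?_
          rw [card_product, card_univ]
          gcongr
          exact card_le_univ _))
      have g4 : ∀ j ∈ I, ∀ b c, g b ≠ G j c := fun j hj b c e => g2 b
        (mem_union_right _ (mem_image.2 ⟨(j, c), by simp [hj], e.symm⟩))
      have u : ∀ j ∈ I, Function.update G i g j = G j := fun j hj =>
        Function.update_of_ne (by rintro rfl; exact hi hj) _ _
      refine ⟨Function.update G i g, fun a ha b hb x y e => ?_, fun a ha => ?_⟩
      · rcases mem_insert.1 ha with ha' | ha' <;> rcases mem_insert.1 hb with hb' | hb'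
        · rw [ha', hb'] at e ⊢
          exact ⟨rfl, g1 (by simpa using e)⟩
        · rw [ha', u b hb', Function.update_self] at e
          exact absurd e (g4 b hb' _ _)
        · rw [hb', u a ha', Function.update_self] at e
          exact absurd e.symm (g4 a ha' _ _)
        · rw [u a ha', u b hb'] at e
          exact h1 a ha' b hb' x y e
      · rcases mem_insert.1 ha with rfl | ha
        · rw [Function.update_self]
          exact ⟨fun b hb => g2 b (mem_union_left _ hb), g3⟩
        · rw [u a ha]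
          exact h2 a ha
  obtain ⟨G, h1, h2⟩ := key univ
  exact ⟨fun p => G p.1 p.2, fun p q e => Prod.ext_iff.2 (h1 _ (mem_univ _) _ (mem_univ _) _ _ e),
    fun p => (h2 _ (mem_univ _)).1 _, fun i => (h2 i (mem_univ _)).2⟩

end Pool.Agent.Lib.MP_4fe900_gt.Sc
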