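import Pool.Agent.Lib.MP_4fe900_gt.St

/-!
A ring with keys: a sparse configuration that forces a link with many components.
-/

namespace Pool.Agent.Lib.MP_4fe900_gt.Sc

open Finset

variable {V : Type}

/-- The edges of the walk along a list, ending in a given vertex. -/
def pa : List V → V → List (V × V)
  | [], _ => []
  | x :: l, e => (x, l.headD e) :: pa l e

theorem pa_append (l₁ l₂ : List V) (y e : V) :
    pa (l₁ ++ y :: l₂) e = pa l₁ y ++ pa (y :: l₂) e := by
  induction l₁ with
  | nil => rfl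
  | cons x l ih => cases l <;> simp_all [pa]

theorem arcs_cons (x : V) (l : List V) : arcs (x :: l) = pa (x :: l) x := by
  have : ∀ (l : List V) (x e : V), (x :: l).zip (l ++ [e]) = pa (x :: l) e := by
    intro l
    induction l with
    | nil => intro x e; rfl
    | cons y l ih => intro x e; simp [pa, ih y e]
  simp [arcs, List.rotate_cons_succ, this]

theorem pa_range (hd : ℕ → V) (tl : ℕ → List V) (m : ℕ) :
    pa ((List.range m).flatMap fun k => hd k :: tl k) (hd m) =
      (List.range m).flatMap fun k => pa (hd k :: tl k) (hd (k + 1)) := by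
  induction m with
  | zero => rfl
  | succ m ih => simp [List.range_succ, pa_append, ih]

/-- The cyclic successor. -/
def nx {q : ℕ} (k : Fin (q + 1)) : Fin (q + 1) := Fin.ofNat (q + 1) (k + 1)

theorem arcs_ring {q : ℕ} (hd : Fin (q + 1) → V) (tl : Fin (q + 1) → List V) :
    arcs ((List.finRange (q + 1)).flatMap fun k => hd k :: tl k) =
      (List.finRange (q + 1)).flatMap fun k => pa (hd k :: tl k) (hd (nx k)) := by
  have e : List.finRange (q + 1) = (List.range (q + 1)).map (Fin.ofNat (q + 1)) := by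
    apply List.ext_getElem (by simp)
    intro i h1 h2
    have : i < q + 1 := by simpa using h1
    simp [Fin.ext_iff, Nat.mod_eq_of_lt this]
  have h := pa_range (fun k => hd (Fin.ofNat (q + 1) k)) (fun k => tl (Fin.ofNat (q + 1) k)) (q + 1)
  have e0 : Fin.ofNat (q + 1) (q + 1) = Fin.ofNat (q + 1) 0 := by simp [Fin.ext_iff]
  have e1 : ∀ k, nx (Fin.ofNat (q + 1) k) = Fin.ofNat (q + 1) (k + 1) := by
    intro k; simp [nx, Fin.ext_iff]
  rw [e, List.flatMap_map, List.flatMap_map]
  simp only [e1]
  rw [← h, e0, List.range_succ_eq_map, List.flatMap_cons, List.cons_append, arcs_cons]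

theorem half {ι : Type} [Fintype ι] [DecidableEq ι] (v : ι → Bool → ι → ZMod 2)
    (h : ∀ k, v k true k + v k false k = 1) :
    ∃ ε : ι → Bool, Fintype.card ι ≤ 2 * #{k | ∑ j, v j (ε j) k = 1} := by
  have key : ∀ k, 2 * #{ε : ι → Bool | ∑ j, v j (ε j) k = 1} = Fintype.card (ι → Bool) := by
    intro k
    have fl : ∀ ε : ι → Bool, ∑ j, v j (Function.update ε k (!ε k) j) k = ∑ j, v j (ε j) k + 1 := by
      intro ε
      rw [← add_sum_erase _ _ (mem_univ k), ← add_sum_erase _ (fun j => v j (ε j) k) (mem_univ k),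
        sum_congr rfl fun j hj => by rw [Function.update_of_ne (ne_of_mem_erase hj)],
        Function.update_self, ← h k]
      have z : ∀ x : ZMod 2, x + x = 0 := by decide
      cases ε k
      · simp only [Bool.not_false]
        linear_combination (-1 : ZMod 2) * z (v k false k)
      · simp only [Bool.not_true]
        linear_combination (-1 : ZMod 2) * z (v k true k)
    have h0 := card_filter_add_card_filter_not (s := (univ : Finset (ι → Bool)))
      (fun ε => ∑ j, v j (ε j) k = 1)
    have h1 : #{ε : ι → Bool | ∑ j, v j (ε j) k = 1} = #{ε : ι → Bool | ¬∑ j, v j (ε j) k = 1} := by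
      have inv : ∀ ε : ι → Bool, Function.update (Function.update ε k (!ε k)) k
          (!Function.update ε k (!ε k) k) = ε := by intro ε; simp
      refine card_bij' (fun ε _ => Function.update ε k (!ε k)) (fun ε _ => Function.update ε k (!ε k))
        (fun ε hε => ?_) (fun ε hε => ?_) (fun ε _ => inv ε) (fun ε _ => inv ε)
      · simp only [mem_filter, mem_univ, true_and] at hε ⊢
        rw [fl, hε]; decide
      · simp only [mem_filter, mem_univ, true_and] at hε ⊢
        rw [fl]
        revert hε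
        generalize ∑ j, v j (ε j) k = x
        revert x; decide
    rw [card_univ] at h0
    omega
  by_contra hc
  push Not at hc
  have h1 : ∑ ε : ι → Bool, 2 * #{k | ∑ j, v j (ε j) k = 1} < ∑ _ε : ι → Bool, Fintype.card ι :=
    sum_lt_sum_of_nonempty univ_nonempty fun ε _ => hc ε
  have h2 : ∑ ε : ι → Bool, #{k | ∑ j, v j (ε j) k = 1} =
      ∑ k, #{ε : ι → Bool | ∑ j, v j (ε j) k = 1} := by
    simp only [card_filter]
    exact sum_comm
  rw [← mul_sum, h2, mul_sum] at h1
  simp only [key, sum_const, card_univ, smul_eq_mul] at h1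
  rw [mul_comm] at h1
  exact lt_irrefl _ h1

/-- The vertices of one block. -/
abbrev Loc := Fin 8 ⊕ (Fin 4 × Fin 3) × Fin 2

/-- First side. -/
def aL (i : Fin 3) : Loc := .inl (![0, 1, 2] i)

/-- Second side. -/
def bL (i : Fin 3) : Loc := .inl (![3, 4, 5] i)

/-- The key. -/
def yL (i j : Fin 3) : List Loc :=
  [.inl 6, .inr ((0, i), 0), .inr ((0, i), 1), aL i, bL j, .inr ((1, j), 0), .inr ((1, j), 1)]

/-- The piece of the ring, without its first vertex. -/
def zL (i j : Fin 3) : List Loc :=
  [.inr ((2, i), 0), .inr ((2, i), 1), aL i, bL j, .inr ((3, j), 0), .inr ((3, j), 1)]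

theorem yL_nodup : ∀ i j, (yL i j).Nodup := by decide

theorem zL_nodup : ∀ i j, (Sum.inl 7 :: zL i j).Nodup := by decide

theorem yz : ∀ i j i' j', i ≠ i' → j ≠ j' → ∀ x ∈ yL i j, x ∉ Sum.inl 7 :: zL i' j' := by
  have : ∀ i j i' j', i ≠ i' → j ≠ j' → (yL i j ++ Sum.inl 7 :: zL i' j').Nodup := by decide
  exact fun i j i' j' h1 h2 x hx hx' => List.disjoint_of_nodup_append (this i j i' j' h1 h2) hx hx'

theorem key {r : V → V → Prop} {w : V × V → V × V → ZMod 2} (hK : K33 r w) (L : Loc → V)
    (hL : Function.Injective L) (hab : ∀ i j, r (L (aL i)) (L (bL j))) :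
    ∃ i j, ∑ i', ∑ j', (if i ≠ i' ∧ j ≠ j' then
      ((arcs ((yL i j).map L)).map fun e => w e (L (aL i'), L (bL j'))).sum else 0) = 1 := by
  have h1 := hK (fun i => L (aL i)) (fun i => L (bL i))
    (fun i j e => (by decide : ∀ i j, aL i = aL j → i = j) i j (hL e))
    (fun i j e => (by decide : ∀ i j, bL i = bL j → i = j) i j (hL e))
    (fun i j e => (by decide : ∀ i j, aL i ≠ bL j) i j (hL e)) hab
  by_contra hc
  push Not at hc
  have z : ∀ a : ZMod 2, a ≠ 1 → a = 0 := by decide
  have h0 := sum_eq_zero (s := univ) fun i _ => sum_eq_zero (s := univ) fun j _ => z _ (hc i j)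
  simp only [yL, List.map_cons, List.map_nil, arcs_cons, pa, List.headD_cons, List.headD_nil,
    List.sum_cons, List.sum_nil] at h0
  simp only [Fin.sum_univ_three] at h0 h1
  simp only [ne_eq, Fin.reduceEq, not_true_eq_false, not_false_eq_true, and_true, and_false,
    if_true, if_false, and_self, false_and, true_and] at h0 h1
  have : (1 : ZMod 2) = 0 := by
    linear_combination (norm := (ring_nf; reduce_mod_char; try ring_nf)) h0 - h1
  exact absurd this (by decide)

theorem two (θ : V × V → ZMod 2) (L : Loc → V) (e : V) (i j : Fin 3)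
    (h : ∑ i', ∑ j', (if i ≠ i' ∧ j ≠ j' then θ (L (aL i'), L (bL j')) else 0) = 1) :
    ∃ ch : Bool → Fin 3 × Fin 3, (∀ b, i ≠ (ch b).1 ∧ j ≠ (ch b).2) ∧
      ((pa (L (.inl 7) :: (zL (ch true).1 (ch true).2).map L) e).map θ).sum +
      ((pa (L (.inl 7) :: (zL (ch false).1 (ch false).2).map L) e).map θ).sum = 1 := by
  by_contra hc
  push Not at hc
  have z : ∀ a : ZMod 2, a ≠ 1 → a = 0 := by decide
  have n1 : ∀ i : Fin 3, i ≠ i + 1 := by decide
  have n2 : ∀ i : Fin 3, i ≠ i + 2 := by decide
  have h1 := z _ (hc (fun b => (i + 1, if b then j + 1 else j + 2))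
    fun b => ⟨n1 i, by cases b; exacts [n2 j, n1 j]⟩)
  have h2 := z _ (hc (fun b => (i + 2, if b then j + 1 else j + 2))
    fun b => ⟨n2 i, by cases b; exacts [n2 j, n1 j]⟩)
  have h3 : ∀ f : Fin 3 → Fin 3 → ZMod 2, ∑ i', ∑ j', (if i ≠ i' ∧ j ≠ j' then f i' j' else 0) =
      f (i + 1) (j + 1) + f (i + 1) (j + 2) + f (i + 2) (j + 1) + f (i + 2) (j + 2) := by
    intro f
    fin_cases i <;> fin_cases j <;> simp [Fin.sum_univ_three] <;> ring
  rw [h3] at h
  simp only [zL, List.map_cons, List.map_nil, pa, List.headD_cons, List.headD_nil,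
    List.sum_cons, List.sum_nil, if_true, Bool.false_eq_true, if_false] at h1 h2
  have : (1 : ZMod 2) = 0 := by
    linear_combination (norm := (ring_nf; reduce_mod_char; try ring_nf)) h1 + h2 - h
  exact absurd this (by decide)

theorem sum_flat {α β : Type} (l : List α) (f : α → List β) (φ : β → ZMod 2) :
    ((l.flatMap f).map φ).sum = (l.map fun k => ((f k).map φ).sum).sum := by
  induction l with
  | nil => rfl
  | cons x l ih => simp [ih]

theorem sum_swap {α β : Type} (l : List α) (l' : List β) (φ : α → β → ZMod 2) :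
    (l.map fun e => (l'.map fun f => φ e f).sum).sum =
      (l'.map fun f => (l.map fun e => φ e f).sum).sum := by
  induction l with
  | nil => simp
  | cons x l ih => simp [ih, List.sum_map_add]

/-- Start of a connecting path. -/
def src (p : Fin 4 × Fin 3) : Loc := ![.inl 6, bL p.2, .inl 7, bL p.2] p.1

/-- End of a connecting path. -/
def tgt {q : ℕ} (k : Fin (q + 1)) (p : Fin 4 × Fin 3) : Fin (q + 1) × Loc :=
  ![(k, aL p.2), (k, .inl 6), (k, aL p.2), (nx k, .inl 7)] p.1

theorem ring {r : V → V → Prop} {m : ℕ} (L : Fin (2 * m + 1) × Loc → V)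
    (hL : Function.Injective L) (hab : ∀ k i j, r (L (k, aL i)) (L (k, bL j)))
    (hp : ∀ k p, r (L (k, src p)) (L (k, .inr (p, 0))) ∧ r (L (k, .inr (p, 0))) (L (k, .inr (p, 1)))
      ∧ r (L (k, .inr (p, 1))) (L (tgt k p))) (w : V × V → V × V → ZMod 2) (hK : K33 r w) :
    Fam r w (m + 1) := by
  classical
  have hk : ∀ k, Function.Injective fun l => L (k, l) := fun k a b e => (Prod.mk.inj (hL e)).2
  choose i j hij using fun k => key hK (fun l => L (k, l)) (hk k) (hab k)
  let Y := fun k => (yL (i k) (j k)).map fun l => L (k, l)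
  let θ := fun k f => ((arcs (Y k)).map fun e => w e f).sum
  choose ch h1 h2 using fun k =>
    two (θ k) (fun l => L (k, l)) (L (nx k, .inl 7)) (i k) (j k) (hij k)
  let tl := fun k b => (zL (ch k b).1 (ch k b).2).map fun l => L (k, l)
  obtain ⟨ε, hε⟩ := half (fun k b k' =>
    ((pa (L (k, .inl 7) :: tl k b) (L (nx k, .inl 7))).map (θ k')).sum) h2
  let Z := (List.finRange (2 * m + 1)).flatMap fun k => L (k, .inl 7) :: tl k (ε k)
  have hZ : arcs Z = _ := arcs_ring (fun k => L (k, .inl 7)) fun k => tl k (ε k)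
  have mZ : ∀ k, L (k, .inl 7) :: tl k (ε k) =
      (Sum.inl 7 :: zL (ch k (ε k)).1 (ch k (ε k)).2).map fun l => L (k, l) := fun k => rfl
  have dj : ∀ k k' (l l' : List Loc), k ≠ k' →
      (l.map fun x => L (k, x)).Disjoint (l'.map fun x => L (k', x)) := by
    intro k k' l l' h x hx hx'
    obtain ⟨a, -, rfl⟩ := List.mem_map.1 hx
    obtain ⟨b, -, e⟩ := List.mem_map.1 hx'
    exact h (Prod.mk.inj (hL e)).1.symm
  have cZ : IsCyc r Z := by
    refine ⟨by simp [Z, List.finRange_succ], List.nodup_flatMap.2 ⟨fun k _ => ?_, ?_⟩, ?_⟩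
    · rw [mZ]
      exact (zL_nodup _ _).map (hk k)
    · refine (List.nodup_finRange _).imp fun {a b} h => ?_
      simp only [Function.onFun, mZ]
      exact dj a b _ _ h
    · intro e he
      rw [hZ] at he
      obtain ⟨k, -, he⟩ := List.mem_flatMap.1 he
      have a1 := hp k (2, (ch k (ε k)).1)
      have a2 := hp k (3, (ch k (ε k)).2)
      simp only [tl, zL, List.map_cons, List.map_nil, pa, List.headD_cons, List.headD_nil,
        List.mem_cons, List.not_mem_nil, or_false] at he
      rcases he with rfl | rfl | rfl | rfl | rfl | rfl | rfl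
      exacts [a1.1, a1.2.1, a1.2.2, hab _ _ _, a2.1, a2.2.1, a2.2.2]
  have cY : ∀ k, IsCyc r (Y k) := by
    intro k
    refine ⟨by simp [Y, yL], (yL_nodup _ _).map (hk k), fun e he => ?_⟩
    have a1 := hp k (0, i k)
    have a2 := hp k (1, j k)
    simp only [Y, yL, List.map_cons, List.map_nil, arcs_cons, pa, List.headD_cons, List.headD_nil,
      List.mem_cons, List.not_mem_nil, or_false] at he
    rcases he with rfl | rfl | rfl | rfl | rfl | rfl | rfl
    exacts [a1.1, a1.2.1, a1.2.2, hab _ _ _, a2.1, a2.2.1, a2.2.2]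
  have dZ : ∀ k, (Y k).Disjoint Z := by
    intro k x hx hx'
    obtain ⟨k', -, hx'⟩ := List.mem_flatMap.1 hx'
    rw [mZ] at hx'
    by_cases h : k = k'
    · subst h
      obtain ⟨a, ha, rfl⟩ := List.mem_map.1 hx
      obtain ⟨b, hb, e⟩ := List.mem_map.1 hx'
      obtain rfl := hk k e
      exact yz _ _ _ _ (h1 k _).1 (h1 k _).2 _ ha hb
    · exact dj k k' _ _ h hx hx'
  have lZ : ∀ k, lk w (Y k) Z = ∑ k', ((pa (L (k', .inl 7) :: tl k' (ε k'))
      (L (nx k', .inl 7))).map (θ k)).sum := by
    intro k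
    rw [lk, sum_swap, hZ, sum_flat, Fin.sum_univ_def]
  simp only [← lZ, Fintype.card_fin] at hε
  obtain ⟨T, hT, hc⟩ := exists_subset_card_eq (s := {k | lk w (Y k) Z = 1}) (n := m) (by omega)
  let e := T.orderEmbOfFin hc
  refine ⟨Fin.cons Z fun t => Y (e t), fun t => Fin.cases cZ (fun t => cY _) t, ?_, fun t => ?_⟩
  · intro s t
    refine Fin.cases ?_ (fun s => ?_) s <;> refine Fin.cases ?_ (fun t => ?_) t
    · simp
    · exact fun _ => (dZ _).symm
    · exact fun _ => dZ _
    · exact fun h => dj _ _ _ _ fun h' => h (congrArg Fin.succ (e.injective h' : s = t))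
  · refine Fin.cases (by simp) (fun t _ => ⟨0, Fin.succ_pos t, Or.inr ?_⟩) t
    simpa using hT (T.orderEmbOfFin_mem hc t)

end Pool.Agent.Lib.MP_4fe900_gt.Sc
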