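import Pool.Agent.Lib.MP_4fe900_gt.Sc.A
import Pool.Agent.Lib.MP_4fe900_gt.Sc.B
import Pool.Agent.Lib.MP_4fe900_gt.In
import Pool.Agent.Lib.MP_4fe900_gt.TL.Top

/-!
A gap between a score and its position forces links.
-/

namespace Pool.Agent.Lib.MP_4fe900_gt.Sc

open Finset
open scoped Classical

variable {V : Type} {r : V → V → Prop} [Fintype V]

theorem inL_of_lk (hT : Tour r) (m : ℕ) (S : Finset V) (hS : #S = 16 * m + 263)
    (hk : Lk r S (64 * m + 287)) : InL r (m + 1) := by
  obtain ⟨v, -⟩ : S.Nonempty := card_pos.1 (by omega)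
  have : Nonempty V := ⟨v⟩
  obtain ⟨B, b1, -, b2⟩ := greedy (ι := Fin (2 * m + 1)) (β := Fin 8)
    (fun _ g => (∀ b, g b ∈ S) ∧ ∀ b c, b < c → r (g b) (g c)) ∅ (by
      intro i F _ hF
      simp only [card_empty, Fintype.card_fin] at hF
      have := le_card_sdiff F S
      obtain ⟨g, g1, g2⟩ := trans_block hT 8 (S \ F) (by omega)
      refine ⟨g, fun b c e => ?_, fun b => (mem_sdiff.1 (g1 b)).2,
        fun b => (mem_sdiff.1 (g1 b)).1, g2⟩
      by_contra h
      rcases lt_or_gt_of_ne h with h | h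
      · exact irr hT _ (e ▸ g2 b c h)
      · exact irr hT _ (e ▸ g2 c b h))
  let L0 : Fin (2 * m + 1) × Loc → V := fun x =>
    Sum.elim (fun b => B (x.1, b)) (fun _ => B (x.1, 0)) x.2
  have h0 : ∀ x, L0 x ∈ S := by
    rintro ⟨k, b | b⟩ <;> exact (b2 k).1 _
  obtain ⟨P, p1, p2, p3⟩ := greedy (ι := Fin (2 * m + 1) × Fin 4 × Fin 3) (β := Fin 2)
    (fun x g => r (L0 (x.1, src x.2)) (g 0) ∧ r (g 0) (g 1) ∧ r (g 1) (L0 (tgt x.1 x.2))) S (by
      intro x F h1 hF
      simp only [Fintype.card_prod, Fintype.card_fin] at hF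
      obtain ⟨a, z, g1, g2, g3, g4, g5⟩ := hk _ (h0 (x.1, src x.2)) _ (h0 (tgt x.1 x.2)) F h1
        (by omega)
      have ne : a ≠ z := fun e => irr hT z (e ▸ g4)
      refine ⟨![a, z], fun b c e => ?_, fun b => ?_, g3, g4, g5⟩
      · fin_cases b <;> fin_cases c <;> simp_all [ne.symm]
      · fin_cases b
        exacts [g1, g2])
  let L : Fin (2 * m + 1) × Loc → V := fun x =>
    Sum.elim (fun b => B (x.1, b)) (fun y => P ((x.1, y.1), y.2)) x.2
  refine inS Pool.Agent.TL.top V r _ (ring L ?_ (fun k i j => ?_) fun k p => ?_)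
  · rintro ⟨k, b | b⟩ ⟨k', b' | b'⟩ e
    · obtain ⟨rfl, rfl⟩ := Prod.mk.inj (b1 e)
      rfl
    · have h : B (k, b) ∈ S := (b2 k).1 b
      exact absurd ((show B (k, b) = P ((k', b'.1), b'.2) from e) ▸ h) (p2 _)
    · have h : B (k', b') ∈ S := (b2 k').1 b'
      exact absurd ((show B (k', b') = P ((k, b.1), b.2) from e.symm) ▸ h) (p2 _)
    · have := p1 e
      simp only [Prod.mk.injEq] at this
      rw [this.1.1, Prod.ext this.1.2 this.2]
  · exact (b2 k).2 _ _ (by revert i j; decide)
  · have := p3 (k, p)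
    obtain ⟨τ, i⟩ := p
    fin_cases τ <;> exact this

omit [Fintype V] in
theorem inL_zero : InL r 0 := fun _ =>
  ⟨Fin.elim0, fun i => i.elim0, fun i => i.elim0, fun _ _ _ _ i => i.elim0⟩

theorem inL_of_low (hT : Tour r) (n D : ℕ) (hD : D ≤ Fintype.card V)
    (h : #{v | od r v < D} + 320 * n + 1120 ≤ D ∨
      #{v | od (fun a b => r b a) v < D} + 320 * n + 1120 ≤ D) : InL r n := by
  rcases Nat.eq_zero_or_pos n with rfl | hn
  · exact inL_zero
  obtain ⟨m, hm⟩ : ∃ m, m + 1 = n := ⟨n - 1, by omega⟩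
  rw [← hm]
  rcases h with h | h
  · obtain ⟨S, h1, h2⟩ := exists_lk hT D (16 * m + 263) (64 * m + 287) (by omega) hD
      (le_trans (le_of_eq (by rw [← hm]; ring)) h)
    exact inL_of_lk hT m S h1 h2
  · obtain ⟨S, h1, h2⟩ :=
      exists_lk (Tour.flip hT) D (16 * m + 263) (64 * m + 287) (by omega) hD
      (le_trans (le_of_eq (by rw [← hm]; ring)) h)
    exact inL_of_lk hT m S h1 h2.flip

theorem od_add (hT : Tour r) (a : V) :
    od r a + od (fun a b => r b a) a + 1 = Fintype.card V := by
  have e : ({b | ¬r a b} : Finset V) = insert a ({b | r b a} : Finset V) := by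
    ext b
    simp only [mem_filter, mem_insert, mem_univ, true_and]
    constructor
    · intro h
      by_cases hab : b = a
      · exact Or.inl hab
      · exact Or.inr ((hT.2 b a hab).resolve_right h)
    · rintro (rfl | h)
      · exact irr hT _
      · exact hT.1 _ _ h
  have := card_filter_add_card_filter_not (s := (univ : Finset V)) (fun b => r a b)
  rw [e, card_insert_of_notMem (by simp [irr hT]), card_univ] at this
  unfold od
  omega

theorem gap {N : ℕ} {r : Fin N → Fin N → Prop} (hT : Tour r) (hm : Monotone (od r)) (n : ℕ)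
    (i : Fin N) (h : i + 320 * n + 1120 ≤ od r i ∨ od r i + 320 * n + 1120 ≤ i) : InL r n := by
  have h0 := fun a => od_add hT a
  simp only [Fintype.card_fin] at h0
  rcases h with h | h
  · refine inL_of_low hT n (od r i) (by have := h0 i; simp only [Fintype.card_fin]; omega)
      (Or.inl (le_trans ?_ h))
    have : #{v | od r v < od r i} ≤ #(Iio i) := card_le_card fun v hv =>
      mem_Iio.2 (hm.reflect_lt (by simpa using hv))
    rw [Fin.card_Iio] at this
    omega
  · refine inL_of_low hT n (od (fun a b => r b a) i)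
      (by have := h0 i; simp only [Fintype.card_fin]; omega) (Or.inr ?_)
    have : #{v | od (fun a b => r b a) v < od (fun a b => r b a) i} ≤ #(Ioi i) :=
      card_le_card fun v hv => mem_Ioi.2 (hm.reflect_lt (by
        simp only [mem_filter, mem_univ, true_and] at hv
        have := h0 i
        have := h0 v
        omega))
    rw [Fin.card_Ioi] at this
    have := h0 i
    omega

end Pool.Agent.Lib.MP_4fe900_gt.Sc
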