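import Pool.Agent.Lib.MP_4fe900_gt.Sc.A

/-!
The theorem of Landau on score sequences, from the marriage theorem.
-/

namespace Pool.Agent.Lib.MP_4fe900_gt.Sc

open Finset
open scoped Classical

theorem landau {N : ℕ} (s : Fin N → ℕ) (h : ∀ U : Finset (Fin N), (#U).choose 2 ≤ ∑ v ∈ U, s v)
    (ht : ∑ v, s v = N.choose 2) : ∃ r : Fin N → Fin N → Prop, Tour r ∧ od r = s := by
  let t : {p : Fin N × Fin N // p.1 < p.2} → Finset (Fin N × ℕ) := fun e =>
    ({e.1.1} ×ˢ range (s e.1.1)) ∪ ({e.1.2} ×ˢ range (s e.1.2))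
  obtain ⟨f, f1, f2⟩ := (all_card_le_biUnion_card_iff_exists_injective t).1 fun F => by
    let U := F.image (·.1.1) ∪ F.image (·.1.2)
    have h1 : #F ≤ (#U).choose 2 := by
      rw [← card_product_filter_lt]
      refine card_le_card_of_injOn Subtype.val (fun e he => ?_) Subtype.val_injective.injOn
      simp only [coe_filter, mem_product, Set.mem_ofPred_eq]
      exact ⟨⟨mem_union_left _ (mem_image_of_mem _ he), mem_union_right _ (mem_image_of_mem _ he)⟩,
        e.2⟩
    have h2 : #(U.biUnion fun v => {v} ×ˢ range (s v)) = ∑ v ∈ U, s v := by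
      rw [card_biUnion]
      · simp
      · intro a _ b _ hab
        exact disjoint_product.2 (Or.inl (by simpa using hab))
    refine h1.trans ((h U).trans (h2 ▸ card_le_card fun x hx => ?_))
    obtain ⟨v, hv, hx⟩ := mem_biUnion.1 hx
    rcases mem_union.1 hv with hv | hv <;> obtain ⟨e, he, rfl⟩ := mem_image.1 hv
    · exact mem_biUnion.2 ⟨e, he, mem_union_left _ hx⟩
    · exact mem_biUnion.2 ⟨e, he, mem_union_right _ hx⟩
  have f3 : ∀ e, ((f e).1 = e.1.1 ∨ (f e).1 = e.1.2) ∧ (f e).2 < s (f e).1 := by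
    intro e
    have := f2 e
    simp only [t, mem_union, mem_product, mem_singleton, mem_range] at this
    rcases this with ⟨a, b⟩ | ⟨a, b⟩
    · exact ⟨Or.inl a, a ▸ b⟩
    · exact ⟨Or.inr a, a ▸ b⟩
  obtain ⟨r, hr⟩ : ∃ r : Fin N → Fin N → Prop,
    ∀ a b, r a b ↔ ∃ e, (f e).1 = a ∧ (e.1 = (a, b) ∨ e.1 = (b, a)) := ⟨_, fun _ _ => Iff.rfl⟩
  have hT : Tour r := by
    simp only [Tour, hr]
    constructor
    · rintro a b ⟨⟨e, he⟩, h1, rfl | rfl⟩ ⟨⟨e', he'⟩, h2, rfl | rfl⟩
      · exact lt_asymm he he'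
      · exact he.ne (h1.symm.trans h2)
      · exact he.ne (h2.symm.trans h1)
      · exact lt_asymm he he'
    · intro a b hab
      rcases lt_or_gt_of_ne hab with h | h
      · exact (f3 ⟨(a, b), h⟩).1.imp (fun x => ⟨_, x, Or.inl rfl⟩) fun x => ⟨_, x, Or.inr rfl⟩
      · exact (f3 ⟨(b, a), h⟩).1.symm.imp (fun x => ⟨_, x, Or.inr rfl⟩) fun x => ⟨_, x, Or.inl rfl⟩
  have le : ∀ a ∈ (univ : Finset (Fin N)), od r a ≤ s a := by
    intro a _
    have : ∀ b : {b // b ∈ ({b | r a b} : Finset (Fin N))}, ∃ e, (f e).1 = a ∧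
        (e.1 = (a, b.1) ∨ e.1 = (b.1, a)) := fun b => (hr _ _).1 (mem_filter.1 b.2).2
    choose e e1 e2 using this
    rw [od, ← card_attach, ← card_range (s a)]
    refine card_le_card_of_injOn (fun b => (f (e b)).2) (fun b _ => ?_) fun b _ c _ hbc => ?_
    · simpa [e1] using (f3 (e b)).2
    · have h1 : e b = e c := f1 (Prod.ext ((e1 b).trans (e1 c).symm) hbc)
      have h2 := e2 b
      have h3 := e2 c
      have h4 := (e c).2.ne
      rw [h1] at h2
      apply Subtype.ext
      rcases h2 with h2 | h2 <;> rcases h3 with h3 | h3 <;> rw [h3] at h2 h4 <;> simp_all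
  refine ⟨r, hT, funext fun a => (sum_eq_sum_iff_of_le le).1 ?_ a (mem_univ a)⟩
  have h1 := sum_out hT univ
  have h2 : 2 * N.choose 2 + N = N * N := by
    have := Nat.choose_succ_right_eq N 1
    rcases N with _ | N
    · simp
    · simp only [Nat.choose_one_right, Nat.add_sub_cancel] at this
      nlinarith
  simp only [card_univ, Fintype.card_fin] at h1
  have h3 : ∑ a, od r a = ∑ a, #{b | r a b} := rfl
  omega

theorem landau' {N h : ℕ} (σ : ℕ → ℕ) (hm : ∀ i j, i ≤ j → j < N → σ i ≤ σ j)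
    (h1 : ∀ i < h, i ≤ σ i) (h2 : ∀ i, h ≤ i → σ i ≤ i)
    (ht : ∑ i ∈ range N, σ i = ∑ i ∈ range N, i) :
    ∃ r : Fin N → Fin N → Prop, Tour r ∧ od r = fun i : Fin N => σ i := by
  have ch : ∀ k, ∑ i ∈ range k, i = k.choose 2 := fun k => by
    rw [sum_range_id, Nat.choose_two_right]
  have pre : ∀ k ≤ N, k.choose 2 ≤ ∑ i ∈ range k, σ i := by
    intro k hk
    rw [← ch]
    by_cases hh : k ≤ h
    · exact sum_le_sum fun i hi => h1 i (by have := mem_range.1 hi; omega)
    · have a := sum_range_add_sum_Ico σ hk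
      have b := sum_range_add_sum_Ico (fun i => i) hk
      have c : ∑ i ∈ Ico k N, σ i ≤ ∑ i ∈ Ico k N, i :=
        sum_le_sum fun i hi => h2 i (by have := (mem_Ico.1 hi).1; omega)
      omega
  refine landau _ (fun U => (pre _ (by simpa using card_le_univ U)).trans ?_)
    (by rw [Fin.sum_univ_eq_sum_range, ht, ch])
  induction U using Finset.induction_on_max with
  | empty => simp
  | insert a U ha ih =>
    have hn : a ∉ U := fun h => lt_irrefl _ (ha a h)
    have : #U ≤ #(Iio a) := card_le_card fun x hx => mem_Iio.2 (ha x hx)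
    rw [Fin.card_Iio] at this
    have := hm _ _ this a.2
    rw [card_insert_of_notMem hn, sum_range_succ, sum_insert hn]
    omega

end Pool.Agent.Lib.MP_4fe900_gt.Sc
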