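import Mathlib

/-!
Counting monotone sequences with constraints: a strip and a ballot condition.
-/

namespace Pool.Agent.Lib.MP_4fe900_gt.Sc

open Finset
open scoped Classical

/-- Monotone sequences below `B`, at least `v`, with a condition on position and value. -/
noncomputable def W (ok : ℕ → ℕ → Prop) (B l i v : ℕ) : Finset (Fin l → ℕ) :=
  {s ∈ Fintype.piFinset fun _ => range B | Monotone s ∧ ∀ t : Fin l, v ≤ s t ∧ ok (i + t) (s t)}

variable {ok : ℕ → ℕ → Prop} {B : ℕ}

theorem mem_W {l i v : ℕ} {s : Fin l → ℕ} : s ∈ W ok B l i v ↔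
    Monotone s ∧ ∀ t : Fin l, s t < B ∧ v ≤ s t ∧ ok (i + t) (s t) := by
  simp only [W, mem_filter, Fintype.mem_piFinset, mem_range, forall_and]
  tauto

theorem W_zero (i v : ℕ) : #(W ok B 0 i v) = 1 := by
  rw [card_eq_one]
  exact ⟨Fin.elim0, eq_singleton_iff_unique_mem.2
    ⟨mem_W.2 ⟨fun i => i.elim0, fun i => i.elim0⟩, fun _ _ => Subsingleton.elim _ _⟩⟩

theorem W_empty (l i v : ℕ) (h : ∀ x < B, v ≤ x → ¬ok i x) : #(W ok B (l + 1) i v) = 0 := by
  rw [card_eq_zero, eq_empty_iff_forall_notMem]
  intro s hs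
  obtain ⟨a, b, c⟩ := (mem_W.1 hs).2 0
  exact h _ a b c

theorem W_succ (l i v : ℕ) (hv : v < B) : #(W ok B (l + 1) i v) =
    (if ok i v then #(W ok B l (i + 1) v) else 0) + #(W ok B (l + 1) i (v + 1)) := by
  rw [← card_filter_add_card_filter_not (s := W ok B (l + 1) i v) (fun s => s 0 = v)]
  congr 1
  · split_ifs with h
    · refine card_bij' (fun s _ => Fin.tail s) (fun s _ => Fin.cons v s) (fun s hs => ?_)
        (fun s hs => ?_) (fun s hs => ?_) fun s _ => Fin.tail_cons _ _
      · obtain ⟨a, b⟩ := mem_W.1 (mem_filter.1 hs).1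
        refine mem_W.2 ⟨fun x y h => a (Fin.succ_le_succ_iff.2 h), fun t => ?_⟩
        have := b t.succ
        rwa [Fin.val_succ, add_comm (t : ℕ), ← add_assoc] at this
      · obtain ⟨a, b⟩ := mem_W.1 hs
        refine mem_filter.2 ⟨mem_W.2 ⟨fun x y => ?_, fun t => ?_⟩, rfl⟩
        · refine Fin.cases ?_ (fun x => ?_) x <;> refine Fin.cases ?_ (fun y => ?_) y
          · simp
          · exact fun _ => (b y).2.1
          · exact fun h => absurd h (not_le.2 (Fin.succ_pos x))
          · exact fun h => a (Fin.succ_le_succ_iff.1 h)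
        · refine Fin.cases ⟨hv, le_rfl, h⟩ (fun t => ?_) t
          rw [Fin.val_succ, add_comm (t : ℕ), ← add_assoc]
          exact b t
      · rw [← (mem_filter.1 hs).2]
        exact Fin.cons_self_tail s
    · rw [card_eq_zero, eq_empty_iff_forall_notMem]
      intro s hs
      obtain ⟨a, b⟩ := mem_filter.1 hs
      exact h (b ▸ ((mem_W.1 a).2 0).2.2)
  · congr 1
    ext s
    simp only [mem_filter, mem_W]
    constructor
    · rintro ⟨⟨a, b⟩, c⟩
      refine ⟨a, fun t => ⟨(b t).1, ?_, (b t).2.2⟩⟩
      have := a (Fin.zero_le t)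
      have := (b 0).2.1
      omega
    · rintro ⟨a, b⟩
      exact ⟨⟨a, fun t => ⟨(b t).1, (b t).2.1.trans' (by omega), (b t).2.2⟩⟩,
        by have := (b 0).2.1; omega⟩

theorem strip (K : ℕ) (hK : 1 ≤ K) (M c : ℝ) (hM : M = (K + 1) ^ 2) (hc : c = 2 - 2 / M) :
    ∀ l d i v : ℕ, v + d = B → i ≤ v + K → v ≤ i + K →
    (#(W (fun p x => x < p + K ∧ p < x + K) B l i v) : ℝ) ≤ c ^ (l + d) * (M - (v - i) ^ 2) := by
  have hK' : (1 : ℝ) ≤ K := by exact_mod_cast hK
  have hM2 : 2 ≤ M := by nlinarith
  have c1 : 1 ≤ c := by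
    have : 2 / M ≤ 1 := (div_le_one (by linarith)).2 hM2
    linarith
  have cM : c * M = 2 * M - 2 := by rw [hc]; field_simp
  have ph : ∀ i v : ℕ, i ≤ v + K → v ≤ i + K →
      1 ≤ M - ((v : ℝ) - i) ^ 2 ∧ 0 ≤ M - ((v : ℝ) - (i + 1)) ^ 2 := by
    intro i v h1 h2
    have h1' : (i : ℝ) ≤ v + K := by exact_mod_cast h1
    have h2' : (v : ℝ) ≤ i + K := by exact_mod_cast h2
    constructor <;> nlinarith
  intro l
  induction l with
  | zero =>
    intro d i v _ h1 h2
    rw [W_zero, Nat.cast_one]
    exact one_le_mul_of_one_le_of_one_le (one_le_pow₀ c1) (ph i v h1 h2).1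
  | succ l ih =>
    intro d
    induction d with
    | zero =>
      intro i v h h1 h2
      rw [W_empty _ _ _ (fun x a b => by omega), Nat.cast_zero]
      have := (ph i v h1 h2).1
      positivity
    | succ d ihd =>
      intro i v h h1 h2
      have p := ph i v h1 h2
      rcases h2.eq_or_lt with h3 | h3
      · rw [W_empty _ _ _ (fun x a b => by omega), Nat.cast_zero]
        have := p.1
        positivity
      have q : 0 < c ^ (l + (d + 1)) := by positivity
      have a1 : ((if v < i + K ∧ i < v + K then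
          #(W (fun p x => x < p + K ∧ p < x + K) B l (i + 1) v) else 0 : ℕ) : ℝ) ≤
          c ^ (l + (d + 1)) * (M - ((v : ℝ) - (i + 1)) ^ 2) := by
        split_ifs with h4
        · simpa using ih (d + 1) (i + 1) v h (by omega) (by omega)
        · rw [Nat.cast_zero]
          exact mul_nonneg q.le p.2
      have a2 := ihd i (v + 1) (by omega) (by omega) (by omega)
      rw [W_succ _ _ _ (by omega), Nat.cast_add]
      refine le_trans (add_le_add (by convert a1 <;> rfl) a2) ?_
      rw [show l + 1 + d = l + (d + 1) by ring, show l + 1 + (d + 1) = l + (d + 1) + 1 by ring,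
        pow_succ c, mul_assoc, ← mul_add]
      refine mul_le_mul_of_nonneg_left ?_ q.le
      push_cast
      have : c ≤ 2 := by
        have : 0 ≤ 2 / M := by positivity
        linarith
      nlinarith [sq_nonneg ((v : ℝ) - i)]

theorem ballot : ∀ p q i v : ℕ, i + p = B → v + q + 1 = B → q ≤ p →
    #(W (fun p x => p ≤ x) B p i v) + (p + q).choose (p + 1) = (p + q).choose p := by
  intro p
  induction p with
  | zero =>
    intro q i v _ _ h
    obtain rfl : q = 0 := by omega
    simp [W_zero]
  | succ p ih =>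
    intro q
    induction q with
    | zero =>
      intro i v h1 h2 _
      have := ih 0 (i + 1) v (by omega) h2 (by omega)
      rw [W_succ _ _ _ (by omega), if_pos (by omega), W_empty _ _ _ (fun x a b => by omega)]
      simpa using this
    | succ q ihq =>
      intro i v h1 h2 h3
      have a := ihq i (v + 1) h1 (by omega) (by omega)
      rw [W_succ _ _ _ (by omega), show p + 1 + (q + 1) = p + 1 + q + 1 by ring,
        Nat.choose_succ_succ' _ (p + 1), Nat.choose_succ_succ' _ p]
      split_ifs with h4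
      · have b := ih (q + 1) (i + 1) v (by omega) h2 (by omega)
        rw [show p + (q + 1) = p + 1 + q by ring] at b
        omega
      · obtain rfl : q = p := by omega
        have b : (q + 1 + q).choose (q + 1) = (q + 1 + q).choose q := Nat.choose_symm_add
        omega

theorem catalan_le (h : ℕ) :
    4 ^ h ≤ (2 * h + 1) * ((h + 1) * #(W (fun p x => p ≤ x) h h 0 0)) := by
  rcases h with _ | g
  · simp [W_zero]
  have a := ballot (B := g + 1) (g + 1) g 0 0 (by omega) (by omega) (by omega)
  have b := Nat.choose_succ_right_eq (g + 1 + g) (g + 1)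
  have c : (g + 1 + g).choose (g + 1) = (g + 1 + g).choose g := Nat.choose_symm_add
  have d := Nat.choose_succ_succ' (g + 1 + g) g
  have e := Nat.four_pow_le_two_mul_add_one_mul_central_binom (g + 1)
  rw [show g + 1 + g - (g + 1) = g by omega] at b
  rw [show g + 1 + g + 1 = 2 * (g + 1) by ring] at d
  refine e.trans (Nat.mul_le_mul_left _ (le_of_eq ?_))
  rw [d, ← c]
  nlinarith

end Pool.Agent.Lib.MP_4fe900_gt.Sc
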