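import Pool.Agent.Lib.MP_4fe900_gt.Sc.C
import Pool.Agent.Lib.MP_4fe900_gt.Sc.D
import Pool.Agent.Lib.MP_4fe900_gt.Sc.E

/-!
Many score sequences, and few of them close to the transitive one.
-/

namespace Pool.Agent.Lib.MP_4fe900_gt.Sc

open Finset
open scoped Classical

/-- The excess over the position. -/
def ex {h : ℕ} (a : Fin h → ℕ) (t : ℕ) : ℕ := if ht : t < h then a ⟨t, ht⟩ - t else 0

/-- Two halves glued. -/
def glue {h : ℕ} (N : ℕ) (a b : Fin h → ℕ) (t : ℕ) : ℕ := t + ex a t - ex b (N - 1 - t)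

theorem ex_spec {h : ℕ} {a : Fin h → ℕ} (ha : a ∈ W (fun p x => p ≤ x) h h 0 0) :
    (∀ t, h ≤ t → ex a t = 0) ∧ (∀ t < h, t + ex a t < h) ∧
    (∀ t u, t ≤ u → u < h → t + ex a t ≤ u + ex a u) ∧ ∀ t : Fin h, a t = t + ex a t := by
  obtain ⟨h1, h2⟩ := mem_W.1 ha
  have e : ∀ t (ht : t < h), a ⟨t, ht⟩ = t + ex a t := fun t ht => by
    have := (h2 ⟨t, ht⟩).2.2
    simp only [ex, dif_pos ht] at this ⊢
    omega
  refine ⟨fun t ht => dif_neg (by omega), fun t ht => e t ht ▸ (h2 _).1, fun t u htu hu => ?_,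
    fun t => e t t.2⟩
  rw [← e t (by omega), ← e u hu]
  exact h1 htu

theorem lower (N : ℕ) (A : Finset (Fin N → ℕ))
    (hA : ∀ r : Fin N → Fin N → Prop, Tour r → Monotone (od r) → od r ∈ A) :
    4 ^ N ≤ 4 * (N + 1) ^ 8 * #A := by
  obtain ⟨h, h1, h2⟩ : ∃ h, 2 * h ≤ N ∧ N ≤ 2 * h + 1 := ⟨N / 2, by omega, by omega⟩
  set C := W (fun p x => p ≤ x) h h 0 0
  let φ : (Fin h → ℕ) → ℕ := fun a => ∑ t ∈ range N, ex a t
  have hφ : ∀ a ∈ C, φ a ∈ range (N * N + 1) := by
    intro a ha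
    have := sum_le_card_nsmul (range N) (ex a) N fun t _ => by
      by_cases ht : t < h
      · have := (ex_spec ha).2.1 t ht
        omega
      · rw [(ex_spec ha).1 t (by omega)]
        omega
    rw [card_range, smul_eq_mul] at this
    exact mem_range.2 (Nat.lt_succ_of_le this)
  obtain ⟨y, -, hy⟩ := exists_max_image (range (N * N + 1)) (fun y => #{a ∈ C | φ a = y})
    ⟨0, by simp⟩
  have c1 : #C ≤ (N * N + 1) * #{a ∈ C | φ a = y} := by
    rw [card_eq_sum_card_fiberwise hφ]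
    simpa using sum_le_card_nsmul _ _ _ hy
  set F := {a ∈ C | φ a = y}
  have c2 : #F * #F ≤ #A := by
    rw [← card_product]
    refine card_le_card_of_injOn (fun p (t : Fin N) => glue N p.1 p.2 t) (fun p hp => ?_)
      fun p hp q hq e => ?_
    · obtain ⟨ha, hb⟩ := mem_product.1 hp
      obtain ⟨a1, a2, a3, -⟩ := ex_spec (mem_filter.1 ha).1
      obtain ⟨b1, b2, b3, -⟩ := ex_spec (mem_filter.1 hb).1
      have hm : ∀ i j, i ≤ j → j < N → glue N p.1 p.2 i ≤ glue N p.1 p.2 j := by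
        intro i j hij hj
        have := a1 i; have := a1 j; have := a2 i; have := a3 i j hij
        have := b1 (N - 1 - i); have := b1 (N - 1 - j); have := b2 (N - 1 - j)
        have := b3 (N - 1 - j) (N - 1 - i) (by omega)
        unfold glue
        omega
      obtain ⟨r, r1, r2⟩ := landau' (N := N) (h := h) (glue N p.1 p.2) hm
        (fun i hi => by have := b1 (N - 1 - i); unfold glue; omega)
        (fun i hi => by have := a1 i; unfold glue; omega) (by
          have s1 : ∑ t ∈ range N, (glue N p.1 p.2 t + ex p.2 (N - 1 - t)) =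
              ∑ t ∈ range N, (t + ex p.1 t) := sum_congr rfl fun t ht => by
            have := mem_range.1 ht
            have := b1 (N - 1 - t); have := b2 (N - 1 - t)
            unfold glue
            omega
          rw [sum_add_distrib, sum_add_distrib, sum_range_reflect (ex p.2)] at s1
          have s2 : ∑ t ∈ range N, ex p.1 t = y := (mem_filter.1 ha).2
          have s3 : ∑ t ∈ range N, ex p.2 t = y := (mem_filter.1 hb).2
          omega)
      have := hA r r1 (r2 ▸ fun i j hij => hm i j hij j.2)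
      rwa [r2] at this
    · obtain ⟨ha, hb⟩ := mem_product.1 hp
      obtain ⟨hc, hd⟩ := mem_product.1 hq
      obtain ⟨a1, a2, -, a4⟩ := ex_spec (mem_filter.1 ha).1
      obtain ⟨b1, b2, -, b4⟩ := ex_spec (mem_filter.1 hb).1
      obtain ⟨c1, c2, -, c4⟩ := ex_spec (mem_filter.1 hc).1
      obtain ⟨d1, d2, -, d4⟩ := ex_spec (mem_filter.1 hd).1
      refine Prod.ext (funext fun t => ?_) (funext fun t => ?_)
      · have e1 : glue N p.1 p.2 t = glue N q.1 q.2 t := congrFun e ⟨t, by omega⟩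
        have := t.2
        have := b1 (N - 1 - t); have := d1 (N - 1 - t)
        unfold glue at e1
        rw [a4, c4]
        omega
      · have e1 : glue N p.1 p.2 (N - 1 - t) = glue N q.1 q.2 (N - 1 - t) :=
          congrFun e ⟨N - 1 - t, by omega⟩
        have := t.2
        have := a1 (N - 1 - t); have := c1 (N - 1 - t); have := b2 t t.2; have := d2 t t.2
        unfold glue at e1
        rw [show N - 1 - (N - 1 - t) = t by omega] at e1
        rw [b4, d4]
        omega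
  have c3 : 4 ^ h ≤ (N + 1) ^ 4 * #F :=
    calc 4 ^ h ≤ (2 * h + 1) * ((h + 1) * #C) := catalan_le h
      _ ≤ (N + 1) * ((N + 1) * ((N + 1) ^ 2 * #F)) := by
        gcongr
        · omega
        · exact c1.trans (Nat.mul_le_mul_right _ (by nlinarith))
      _ = _ := by ring
  calc 4 ^ N ≤ 4 ^ (2 * h + 1) := Nat.pow_le_pow_right (by norm_num) h2
    _ = 4 * (4 ^ h * 4 ^ h) := by ring
    _ ≤ 4 * (((N + 1) ^ 4 * #F) * ((N + 1) ^ 4 * #F)) := by gcongr
    _ = 4 * (N + 1) ^ 8 * (#F * #F) := by ring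
    _ ≤ _ := by gcongr

theorem od_lt {N : ℕ} {r : Fin N → Fin N → Prop} (hT : Tour r) (i : Fin N) : od r i < N := by
  have := od_add hT i
  rw [Fintype.card_fin] at this
  omega

theorem few (N n : ℕ) (A Bd : Finset (Fin N → ℕ))
    (hA : ∀ r : Fin N → Fin N → Prop, Tour r → Monotone (od r) → od r ∈ A)
    (hB : ∀ s ∈ Bd, Monotone s ∧ ∃ r, Tour r ∧ od r = s ∧ ∃ m ≤ n, ¬InL r m) :
    (#Bd : ℝ) ≤ 4 * (320 * n + 1121) ^ 2 * (N + 1) ^ 8 *
      Real.exp (-(2 * N / (320 * n + 1121) ^ 2)) * #A := by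
  set M : ℝ := (320 * n + 1121) ^ 2 with hM
  have hM0 : 0 < M := by positivity
  have hM1 : 1 ≤ M := one_le_pow₀ (by have : (0 : ℝ) ≤ n := n.cast_nonneg; linarith)
  have h1 : #Bd ≤ #(W (fun p x => x < p + (320 * n + 1120) ∧ p < x + (320 * n + 1120)) N N 0 0) := by
    refine card_le_card fun s hs => ?_
    obtain ⟨h1, r, h2, rfl, m, h3, h4⟩ := hB s hs
    refine mem_W.2 ⟨h1, fun t => ⟨od_lt h2 t, Nat.zero_le _, ?_⟩⟩
    by_contra hc
    refine h4 (gap h2 h1 m t ?_)
    generalize od r t = x at hc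
    omega
  have h2 := strip (B := N) (320 * n + 1120) (by omega) M _ (by rw [hM]; push_cast; ring) rfl
    N N 0 0 (by omega) (by omega) (by omega)
  have h3 : (4 : ℝ) ^ N ≤ 4 * (N + 1) ^ 8 * #A := by exact_mod_cast lower N A hA
  have h4 : 2 - 2 / M ≤ 2 * Real.exp (-(1 / M)) := by
    have := Real.add_one_le_exp (-(1 / M))
    have e : 2 / M = 2 * (1 / M) := by ring
    linarith
  have h5 : 0 ≤ 2 - 2 / M := by
    have : 2 / M ≤ 2 := div_le_self (by norm_num) hM1
    linarith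
  have h6 : (2 * Real.exp (-(1 / M))) ^ (N + N) = 4 ^ N * Real.exp (-(2 * N / M)) := by
    rw [mul_pow, ← Real.exp_nat_mul, ← two_mul, pow_mul]
    congr 2
    · norm_num
    · push_cast; ring
  calc (#Bd : ℝ) ≤ _ := by exact_mod_cast h1
    _ ≤ _ := h2
    _ ≤ (2 * Real.exp (-(1 / M))) ^ (N + N) * M := by
      simp only [Nat.cast_zero, sub_self, ne_eq, OfNat.ofNat_ne_zero, not_false_eq_true, zero_pow,
        sub_zero]
      gcongr
    _ ≤ (4 * (N + 1) ^ 8 * #A) * Real.exp (-(2 * N / M)) * M := by rw [h6]; gcongr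
    _ = _ := by ring

end Pool.Agent.Lib.MP_4fe900_gt.Sc
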